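import Mathlib
import Pool.Agent.H16.DRC

namespace Pool.Agent.Results.MP_cecf76_co.NotLinear

open Finset

/-- the index set `I` is `ε`-intersecting -/
def EpsInter {n m : ℕ} (A : Fin m → Finset (Fin n)) (ε : ℝ) (I : Finset (Fin m)) : Prop :=
  ∀ i ∈ I, ∀ j ∈ I, i ≠ j → ε * n < (A i ∩ A j).card

theorem result (c ε : ℝ) (hc : c ≤ 1 / 2) (h0 : 0 < ε) (h1 : ε ≤ 1) :
    ∃ γ : ℝ, 0 < γ ∧ ∀ n m : ℕ, 2 ≤ m → 4 * (Real.logb 2 m + 1) ≤ ε * n →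
      ∃ A : Fin m → Finset (Fin n), (∀ k, c * n < (A k).card) ∧
        ∀ I : Finset (Fin m), EpsInter A ε I → (I.card : ℝ) ≤ 2 * (m : ℝ) ^ (1 - γ) := by
  obtain ⟨γ, hγ, h⟩ := Pool.Agent.H16.DRC.constr ε h0 h1
  refine ⟨γ, hγ, fun n m hm hn => ?_⟩
  obtain ⟨A, h2, h3⟩ := h n m hm hn
  refine ⟨A, fun k => ?_, fun I hI => h3 I fun i hi j hj hij => (hI i hi j hj hij).le⟩
  have h4 : (n : ℝ) < 2 * (A k).card := by exact_mod_cast h2 k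
  nlinarith [(Nat.cast_nonneg n : (0 : ℝ) ≤ n)]

end Pool.Agent.Results.MP_cecf76_co.NotLinear
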